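import Pool.Agent.Work.MP_129c4a_an.N.Final
import Pool.Agent.Work.MP_129c4a_an.N.Elem

/-!
If `G` has a non-discrete abelian subgroup, then the Jacobson radical of `A(G)''` (first Arens
product) contains nilpotent elements of every index.
-/

namespace Pool.Agent.Results.MP_129c4a_an.EveryIndex

open MeasureTheory Pool.Agent.Work.MP_129c4a_an Pool.Agent.Work.MP_129c4a_an.N

universe u

theorem result (G : Type u) [Group G] [TopologicalSpace G] [IsTopologicalGroup G]
    [LocallyCompactSpace G] [T2Space G] [MeasurableSpace G] [BorelSpace G]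
    (μ : Measure G) [μ.IsHaarMeasure] [μ.InnerRegularCompactLTTop]
    (K : Subgroup G) (hK : ∀ a ∈ K, ∀ b ∈ K, a * b = b * a) (hnd : ¬ DiscreteTopology K) (n : ℕ) :
    ∃ Φ ∈ rad (ArensBidual (FourierAlgebra μ)),
      (Φ : Unitization ℂ (ArensBidual (FourierAlgebra μ))) ^ n ≠ 0 ∧
      (Φ : Unitization ℂ (ArensBidual (FourierAlgebra μ))) ^ (n + 1) = 0 :=
  exists_index (isFourierAlgebra μ) K hK hnd n

end Pool.Agent.Results.MP_129c4a_an.EveryIndex
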