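import Pool.Agent.Work.MP_129c4a_an.N.Final

/-!
The nilpotency index of the Jacobson radical of `A(G)''` (first Arens product) is one for finite
`G`, two for infinite discrete `G`, and at least three for non-discrete `G`.
-/

namespace Pool.Agent.Results.MP_129c4a_an.NilIndex

open MeasureTheory Pool.Agent.Work.MP_129c4a_an Pool.Agent.Work.MP_129c4a_an.N

universe u

open Classical in
theorem result (G : Type u) [Group G] [TopologicalSpace G] [IsTopologicalGroup G]
    [LocallyCompactSpace G] [T2Space G] [MeasurableSpace G] [BorelSpace G]
    (μ : Measure G) [μ.IsHaarMeasure] [μ.InnerRegularCompactLTTop] :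
    min (radIndex (ArensBidual (FourierAlgebra μ))) 3 =
      if Finite G then 1 else if DiscreteTopology G then 2 else 3 :=
  min_radIndex μ

end Pool.Agent.Results.MP_129c4a_an.NilIndex
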